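import Mathlib

/-!
MP_e732b0_an, module A: the translation relations between the subtiles of an irreducible
substitution form a module of rank one.
-/

set_option autoImplicit false

open Finset

namespace Pool.Agent.PSC.H2

/-- The group ring of the lattice. -/
abbrev GR (d : ℕ) : Type := AddMonoidAlgebra ℚ (Fin d → ℤ)

variable {d : ℕ}

/-- The pairing with a lattice vector. -/
def pr {K : Type} [CommRing K] (w : Fin d → K) (v : Fin d → ℤ) : K := ∑ i, w i * (v i : K)

/-- The relation `x`, integrated against the `N`-th power of `w`; `m j a` is the `j`-th moment of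
the tile `a`. -/
def MomRel (w : Fin d → ℂ) (m : ℕ → Fin d → ℂ) (x : Fin d → GR d) (N : ℕ) : Prop :=
  ∑ a, (x a).coeff.sum (fun v q => (q : ℂ) *
    ∑ j ∈ range (N + 1), (N.choose j : ℂ) * pr w v ^ (N - j) * m j a) = 0

section field

variable {K : Type} [Field K] [Algebra ℚ K]

theorem pr_zero (w : Fin d → K) : pr w 0 = 0 := by simp [pr]

theorem pr_add (w : Fin d → K) (v v' : Fin d → ℤ) : pr w (v + v') = pr w v + pr w v' := by
  simp only [pr, Pi.add_apply, Int.cast_add, mul_add, Finset.sum_add_distrib]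

theorem pr_sub (w : Fin d → K) (v v' : Fin d → ℤ) : pr w (v - v') = pr w v - pr w v' := by
  simp only [pr, Pi.sub_apply, Int.cast_sub, mul_sub, Finset.sum_sub_distrib]

/-- The character. -/
noncomputable def chi (w : Fin d → K) : Multiplicative (Fin d → ℤ) →* PowerSeries K where
  toFun v := PowerSeries.rescale (pr w v.toAdd) (PowerSeries.exp K)
  map_one' := by
    rw [toAdd_one, pr_zero, PowerSeries.rescale_zero]
    simp
  map_mul' v v' := by
    rw [toAdd_mul, pr_add, PowerSeries.exp_mul_exp_eq_exp_add]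

/-- Evaluation of the group ring. -/
noncomputable def ev (w : Fin d → K) : GR d →ₐ[ℚ] PowerSeries K :=
  AddMonoidAlgebra.lift ℚ (PowerSeries K) (Fin d → ℤ) (chi w)

theorem coeff_ev (w : Fin d → K) (x : GR d) (n : ℕ) :
    PowerSeries.coeff n (ev w x) =
      x.coeff.sum fun v q => algebraMap ℚ K q * (pr w v ^ n * algebraMap ℚ K (1 / n.factorial)) := by
  rw [ev, AddMonoidAlgebra.lift_apply, Finsupp.sum, map_sum, Finsupp.sum]
  refine Finset.sum_congr rfl fun v _ => ?_
  rw [PowerSeries.coeff_smul, Algebra.smul_def]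
  change _ * PowerSeries.coeff n (PowerSeries.rescale (pr w v) (PowerSeries.exp K)) = _
  rw [PowerSeries.coeff_rescale, PowerSeries.coeff_exp]

theorem ev_inj (w : Fin d → K) (hw : Function.Injective (pr w : (Fin d → ℤ) → K)) (x : GR d)
    (hx : ev w x = 0) : x = 0 := by
  have hli : LinearIndependent K (fun v : Fin d → ℤ =>
      (fun n : Multiplicative ℕ => pr w v ^ n.toAdd)) := by
    refine (linearIndependent_monoidHom (Multiplicative ℕ) K).comp
      (fun v => powersHom K (pr w v)) ?_
    intro v v' h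
    exact hw ((powersHom K).injective h)
  rw [linearIndependent_iff] at hli
  have h1 := hli (Finsupp.mapRange (algebraMap ℚ K) (map_zero _) x.coeff) (by
    funext n
    have h2 : PowerSeries.coeff n.toAdd (ev w x) = 0 := by rw [hx, map_zero]
    rw [coeff_ev] at h2
    have h3 : algebraMap ℚ K (1 / (n.toAdd).factorial) ≠ 0 := by
      rw [Ne, map_eq_zero]
      positivity
    rw [Finsupp.linearCombination_apply, Finsupp.sum_mapRange_index (by simp)]
    rw [Finsupp.sum, Finset.sum_apply]
    rw [Finsupp.sum] at h2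
    have h4 : (∑ v ∈ x.coeff.support, algebraMap ℚ K (x.coeff v) * pr w v ^ n.toAdd) *
        algebraMap ℚ K (1 / (n.toAdd).factorial) = 0 := by
      rw [Finset.sum_mul, ← h2]
      refine Finset.sum_congr rfl fun v _ => ?_
      ring
    have h5 := (mul_eq_zero.1 h4).resolve_right h3
    rw [Pi.zero_apply, ← h5]
    refine Finset.sum_congr rfl fun v _ => ?_
    rw [Pi.smul_apply, smul_eq_mul])
  have h6 : x.coeff = 0 := by
    ext v
    have h7 := DFunLike.congr_fun h1 v
    rw [Finsupp.mapRange_apply, Finsupp.zero_apply, map_eq_zero] at h7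
    exact h7
  exact AddMonoidAlgebra.ext (by rw [h6]; rfl)

/-- Right eigenvector. -/
def IsR (M : Matrix (Fin d) (Fin d) ℤ) (β : K) (V : Fin d → K) : Prop :=
  ∀ i, ∑ j, (M i j : K) * V j = β * V i

theorem det_ne {M : Matrix (Fin d) (Fin d) ℤ} {rt : Fin d → K} (hrt : Function.Injective rt)
    {V : Fin d → Fin d → K} (h0 : ∀ i, V i ≠ 0) (h : ∀ i, IsR M (rt i) (V i)) :
    (Matrix.of V).det ≠ 0 := by
  set f : Module.End K (Fin d → K) := Matrix.toLin' (M.map (Int.cast : ℤ → K)) with hf
  have h1 : LinearIndependent K V := by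
    refine Module.End.eigenvectors_linearIndependent' f rt hrt V fun i => ?_
    refine ⟨?_, h0 i⟩
    rw [Module.End.mem_eigenspace_iff, hf, Matrix.toLin'_apply]
    funext j
    exact h i j
  have h2 : IsUnit (Matrix.of V) := Matrix.linearIndependent_rows_iff_isUnit.1 h1
  exact ((Matrix.isUnit_iff_isUnit_det _).1 h2).ne_zero

theorem exists_R {M : Matrix (Fin d) (Fin d) ℤ} {β : K}
    (hβ : Polynomial.aeval β (M.charpoly.map (Int.castRingHom ℚ)) = 0) :
    ∃ V : Fin d → K, V ≠ 0 ∧ IsR M β V := by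
  set A : Matrix (Fin d) (Fin d) K := M.map (Int.cast : ℤ → K) with hA
  have hA' : A = M.map (Int.castRingHom K) := rfl
  have h1 : (Matrix.scalar (Fin d) β - A).det = 0 := by
    rw [← Matrix.eval_charpoly, hA', Matrix.charpoly_map]
    have h2 : (algebraMap ℚ K).comp (Int.castRingHom ℚ) = Int.castRingHom K := RingHom.ext_int _ _
    rw [Polynomial.aeval_def, Polynomial.eval₂_eq_eval_map, Polynomial.map_map, h2] at hβ
    exact hβ
  obtain ⟨V, hV0, hV⟩ := Matrix.exists_mulVec_eq_zero_iff.2 h1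
  refine ⟨V, hV0, fun i => ?_⟩
  have h3 := congrFun hV i
  rw [Matrix.sub_mulVec] at h3
  simp only [Pi.sub_apply, Pi.zero_apply, Matrix.scalar_apply, Matrix.mulVec_diagonal] at h3
  rw [sub_eq_zero] at h3
  rw [h3]
  rfl

end field

/-- The algebraic numbers. -/
abbrev QB : Type := AlgebraicClosure ℚ

theorem alg0 : @Algebra.IsAlgebraic ℚ QB _ _ (AlgebraicClosure.instAlgebra ℚ) :=
  AlgebraicClosure.isAlgebraic ℚ

instance alg1 : Algebra.IsAlgebraic ℚ QB := by
  have h := alg0
  have e : (AlgebraicClosure.instAlgebra ℚ : Algebra ℚ (AlgebraicClosure ℚ)) =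
    (DivisionRing.toRatAlgebra : Algebra ℚ QB) := Subsingleton.elim _ _
  rw [e] at h
  exact h

instance alg2 : IsAlgClosure ℚ QB := ⟨inferInstance, alg1⟩

instance alg3 : Normal ℚ QB := IsAlgClosure.normal ℚ QB

theorem conj {P : Polynomial ℚ} (hP : Irreducible P) (hm : P.Monic) {x y : QB}
    (hx : Polynomial.aeval x P = 0) (hy : Polynomial.aeval y P = 0) :
    ∃ φ : QB ≃ₐ[ℚ] QB, φ x = y := by
  have h1 := minpoly.eq_of_irreducible_of_monic hP hx hm
  have h2 : IsAlgebraic ℚ x := ⟨P, hm.ne_zero, hx⟩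
  exact minpoly.exists_algEquiv_of_root' h2 (by rw [← h1]; exact hy)

theorem roots_enum {P : Polynomial ℚ} (hP : Irreducible P) (hd : P.natDegree = d) :
    ∃ rt : Fin d → QB, Function.Injective rt ∧ (∀ i, Polynomial.aeval (rt i) P = 0) ∧
      ∀ β : QB, Polynomial.aeval β P = 0 → ∃ i, rt i = β := by
  classical
  have h1 := Polynomial.card_rootSet_eq_natDegree (K := QB) hP.separable
    (IsAlgClosed.splits _)
  have e : Fin d ≃ P.rootSet QB := (Fintype.equivFinOfCardEq (by rw [h1, hd])).symm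
  refine ⟨fun i => (e i).1, fun i j h => e.injective (Subtype.ext h), fun i => ?_, fun β hβ => ?_⟩
  · exact (Polynomial.mem_rootSet.1 (e i).2).2
  · exact ⟨e.symm ⟨β, Polynomial.mem_rootSet.2 ⟨hP.ne_zero, hβ⟩⟩, by simp⟩

theorem lift_root (ι : QB →ₐ[ℚ] ℂ) {P : Polynomial ℚ} (hP : P ≠ 0) {z : ℂ}
    (hz : Polynomial.aeval z P = 0) : ∃ x : QB, ι x = z ∧ Polynomial.aeval x P = 0 := by
  classical
  have h1 : (P.map (algebraMap ℚ QB)).Splits := IsAlgClosed.splits _
  have h2 := h1.eq_prod_roots
  have h3 : Polynomial.aeval z P =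
      Polynomial.eval₂ (ι : QB →+* ℂ) z (P.map (algebraMap ℚ QB)) := by
    rw [Polynomial.eval₂_map, Polynomial.aeval_def]
    refine congrArg (fun g : ℚ →+* ℂ => Polynomial.eval₂ g z P) ?_
    exact RingHom.ext_rat _ _
  rw [hz, h2, Polynomial.eval₂_mul, Polynomial.eval₂_C, Polynomial.eval₂_multiset_prod,
    Multiset.map_map] at h3
  have h4 : (ι : QB →+* ℂ) (P.map (algebraMap ℚ QB)).leadingCoeff ≠ 0 := by
    rw [map_ne_zero, Polynomial.leadingCoeff_ne_zero]
    exact (Polynomial.map_ne_zero_iff (algebraMap ℚ QB).injective).2 hP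
  have h5 := (mul_eq_zero.1 h3.symm).resolve_left h4
  rw [Multiset.prod_eq_zero_iff, Multiset.mem_map] at h5
  obtain ⟨x, hx, hx2⟩ := h5
  rw [Function.comp_apply, Polynomial.eval₂_sub, Polynomial.eval₂_X, Polynomial.eval₂_C,
    sub_eq_zero] at hx2
  refine ⟨x, hx2.symm, ?_⟩
  have h6 := (Polynomial.mem_roots'.1 hx).2
  rw [Polynomial.IsRoot.def, Polynomial.eval_map] at h6
  rw [Polynomial.aeval_def]
  exact h6

theorem exists_theta (ι : QB →+* ℂ) {z : ℂ} (hz : z ≠ 0) :
    ∃ θ : ℂ →+ QB, (∀ (k : QB) (y : ℂ), θ (ι k * y) = k * θ y) ∧ θ z ≠ 0 := by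
  let _ : Module QB ℂ := Module.compHom ℂ ι
  have h1 : ¬ ∀ f : Module.Dual QB ℂ, f z = 0 := by
    rw [Module.forall_dual_apply_eq_zero_iff]
    exact hz
  push Not at h1
  obtain ⟨f, hf⟩ := h1
  refine ⟨f.toAddMonoidHom, fun k y => ?_, hf⟩
  exact f.map_smul k y

/-- Left eigenvectors over the algebraic numbers are injective on the lattice. -/
theorem pr_inj {M : Matrix (Fin d) (Fin d) ℤ}
    (hirr : Irreducible (M.charpoly.map (Int.castRingHom ℚ))) {β : QB} {w : Fin d → QB}
    (hβ : Polynomial.aeval β (M.charpoly.map (Int.castRingHom ℚ)) = 0) (hw0 : w ≠ 0)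
    (hw : IsR M.transpose β w) : Function.Injective (pr w : (Fin d → ℤ) → QB) := by
  have hmon : (M.charpoly.map (Int.castRingHom ℚ)).Monic := M.charpoly_monic.map _
  have hdeg : (M.charpoly.map (Int.castRingHom ℚ)).natDegree = d := by
    rw [M.charpoly_monic.natDegree_map, Matrix.charpoly_natDegree_eq_dim, Fintype.card_fin]
  obtain ⟨rt, hrt, hrt1, -⟩ := roots_enum hirr hdeg
  have hφ : ∀ i, ∃ φ : QB ≃ₐ[ℚ] QB, φ β = rt i := fun i => conj hirr hmon hβ (hrt1 i)
  choose φ hφ using hφ
  have hV0 : ∀ i, (fun j => φ i (w j)) ≠ 0 := by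
    intro i h
    refine hw0 (funext fun j => ?_)
    have h1 := congrFun h j
    rw [Pi.zero_apply, map_eq_zero] at h1
    exact h1
  have hV : ∀ i, IsR M.transpose (rt i) (fun j => φ i (w j)) := by
    intro i j
    have h := congrArg (φ i) (hw j)
    rw [map_sum, map_mul, hφ] at h
    rw [← h]
    refine Finset.sum_congr rfl fun l _ => ?_
    rw [map_mul, map_intCast]
  have hdet := det_ne hrt hV0 hV
  intro v v' hvv
  have h0 : pr w (v - v') = 0 := by rw [pr_sub, hvv, sub_self]
  have h1 : (Matrix.of fun i j => φ i (w j)).mulVec (fun j => (((v - v') j : ℤ) : QB)) = 0 := by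
    funext i
    have h := congrArg (φ i) h0
    simp only [pr, map_sum, map_mul, map_intCast, map_zero] at h
    exact h
  have h2 := Matrix.eq_zero_of_mulVec_eq_zero hdet h1
  funext j
  have h3 := congrFun h2 j
  rw [Pi.zero_apply, Int.cast_eq_zero, Pi.sub_apply, sub_eq_zero] at h3
  exact h3

/-- Two vectors killed by `d - 1` independent vectors are parallel. -/
theorem parallel {B : Matrix (Fin d) (Fin d) (PowerSeries QB)} (hB : B.det ≠ 0) (i₀ : Fin d)
    {X Y : Fin d → PowerSeries QB} (hX : ∀ i, i ≠ i₀ → ∑ a, X a * B i a = 0)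
    (hY : ∀ i, i ≠ i₀ → ∑ a, Y a * B i a = 0) (a b : Fin d) : X a * Y b = X b * Y a := by
  set p := ∑ a, X a * B i₀ a with hp
  set q := ∑ a, Y a * B i₀ a with hq
  have h1 : ∀ c, q * X c = p * Y c := by
    have h2 : B.mulVec (fun c => q * X c - p * Y c) = 0 := by
      funext i
      have h3 : B.mulVec (fun c => q * X c - p * Y c) i =
          q * (∑ a, X a * B i a) - p * (∑ a, Y a * B i a) := by
        rw [Matrix.mulVec, dotProduct, Finset.mul_sum, Finset.mul_sum, ← Finset.sum_sub_distrib]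
        refine Finset.sum_congr rfl fun c _ => ?_
        ring
      rw [h3, Pi.zero_apply]
      by_cases hi : i = i₀
      · rw [hi, ← hp, ← hq]
        ring
      · rw [hX i hi, hY i hi]
        ring
    intro c
    have h4 := congrFun (Matrix.eq_zero_of_mulVec_eq_zero hB h2) c
    rw [Pi.zero_apply, sub_eq_zero] at h4
    exact h4
  by_cases hq0 : q = 0
  · have h5 : B.mulVec Y = 0 := by
      funext i
      have h6 : B.mulVec Y i = ∑ a, Y a * B i a := by
        rw [Matrix.mulVec, dotProduct]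
        refine Finset.sum_congr rfl fun c _ => ?_
        ring
      rw [h6, Pi.zero_apply]
      by_cases hi : i = i₀
      · rw [hi, ← hq, hq0]
      · exact hY i hi
    have h7 := Matrix.eq_zero_of_mulVec_eq_zero hB h5
    rw [h7]
    simp
  · refine mul_left_cancel₀ hq0 ?_
    calc q * (X a * Y b) = (q * X a) * Y b := by ring
      _ = (p * Y a) * Y b := by rw [h1]
      _ = (p * Y b) * Y a := by ring
      _ = (q * X b) * Y a := by rw [h1]
      _ = q * (X b * Y a) := by ring

theorem pr_tr (ι : QB →ₐ[ℚ] ℂ) (φ : QB ≃ₐ[ℚ] QB) (w : Fin d → QB) (v : Fin d → ℤ) :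
    pr (fun j => ι (φ.symm (w j))) v = ι (φ.symm (pr w v)) := by
  rw [pr, pr, map_sum, map_sum]
  refine Finset.sum_congr rfl fun l _ => ?_
  rw [map_mul, map_mul, map_intCast, map_intCast]

theorem transfer (ι : QB →ₐ[ℚ] ℂ) (φ : QB ≃ₐ[ℚ] QB) (θ : ℂ →+ QB)
    (hθ : ∀ (k : QB) (y : ℂ), θ (ι k * y) = k * θ y) (w : Fin d → QB) (m : ℕ → Fin d → ℂ)
    (x : Fin d → GR d) (hx : ∀ N, MomRel (fun j => ι (φ.symm (w j))) m x N) :
    ∑ a, ev w (x a) *
      PowerSeries.mk (fun n => φ (θ (m n a)) * algebraMap ℚ QB (1 / n.factorial)) = 0 := by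
  have hD : ∀ (k : QB) (z : ℂ), φ (θ (ι (φ.symm k) * z)) = k * φ (θ z) := by
    intro k z
    rw [hθ, map_mul, AlgEquiv.apply_symm_apply]
  have h1 : ∀ (N : ℕ) (a : Fin d),
      φ (θ ((x a).coeff.sum (fun v q => (q : ℂ) * ∑ j ∈ range (N + 1),
        (N.choose j : ℂ) * pr (fun j => ι (φ.symm (w j))) v ^ (N - j) * m j a))) =
      (x a).coeff.sum (fun v q => algebraMap ℚ QB q * ∑ j ∈ range (N + 1),
        (N.choose j : QB) * pr w v ^ (N - j) * φ (θ (m j a))) := by
    intro N a
    rw [Finsupp.sum, map_sum, map_sum, Finsupp.sum]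
    refine Finset.sum_congr rfl fun v _ => ?_
    rw [Finset.mul_sum, map_sum, map_sum, Finset.mul_sum]
    refine Finset.sum_congr rfl fun j _ => ?_
    rw [pr_tr]
    have h2 : (((x a).coeff v : ℚ) : ℂ) *
        ((N.choose j : ℂ) * ι (φ.symm (pr w v)) ^ (N - j) * m j a) =
        ι (φ.symm (algebraMap ℚ QB ((x a).coeff v) * ((N.choose j : QB) * pr w v ^ (N - j)))) *
          m j a := by
      rw [map_mul, map_mul, map_mul, map_mul, map_pow, map_pow, map_natCast, map_natCast,
        AlgEquiv.commutes, AlgHom.commutes]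
      simp only [eq_ratCast]
      ring
    rw [h2, hD]
    ring
  have h3 : ∀ (N : ℕ) (a : Fin d), PowerSeries.coeff N (ev w (x a) *
      PowerSeries.mk (fun n => φ (θ (m n a)) * algebraMap ℚ QB (1 / n.factorial))) =
      algebraMap ℚ QB (1 / N.factorial) * (x a).coeff.sum (fun v q => algebraMap ℚ QB q *
        ∑ j ∈ range (N + 1), (N.choose j : QB) * pr w v ^ (N - j) * φ (θ (m j a))) := by
    intro N a
    rw [mul_comm, PowerSeries.coeff_mul, Finset.Nat.sum_antidiagonal_eq_sum_range_succ_mk]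
    simp only [PowerSeries.coeff_mk, coeff_ev]
    simp only [Finsupp.sum, Finset.mul_sum]
    rw [Finset.sum_comm]
    refine Finset.sum_congr rfl fun v _ => ?_
    refine Finset.sum_congr rfl fun j hj => ?_
    have hjN : j ≤ N := Nat.lt_succ_iff.1 (Finset.mem_range.1 hj)
    have h4 : algebraMap ℚ QB (1 / j.factorial) * algebraMap ℚ QB (1 / (N - j).factorial) =
        algebraMap ℚ QB (1 / N.factorial) * (N.choose j : QB) := by
      have h5 : (1 / (j.factorial : ℚ)) * (1 / ((N - j).factorial : ℚ)) =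
          (1 / (N.factorial : ℚ)) * (N.choose j : ℚ) := by
        have h6 : ((N.choose j * j.factorial * (N - j).factorial : ℕ) : ℚ) = N.factorial := by
          rw [Nat.choose_mul_factorial_mul_factorial hjN]
        have h7 : (j.factorial : ℚ) ≠ 0 := by positivity
        have h8 : ((N - j).factorial : ℚ) ≠ 0 := by positivity
        have h9 : (N.factorial : ℚ) ≠ 0 := by positivity
        field_simp
        push_cast at h6
        linarith
      rw [← map_mul, h5, map_mul, map_natCast]
    calc φ (θ (m j a)) * algebraMap ℚ QB (1 / j.factorial) *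
          (algebraMap ℚ QB ((x a).coeff v) *
            (pr w v ^ (N - j) * algebraMap ℚ QB (1 / (N - j).factorial)))
        = (algebraMap ℚ QB (1 / j.factorial) * algebraMap ℚ QB (1 / (N - j).factorial)) *
          (algebraMap ℚ QB ((x a).coeff v) * pr w v ^ (N - j) * φ (θ (m j a))) := by ring
      _ = _ := by rw [h4]; ring
  ext N
  rw [map_sum, map_zero]
  have h10 := congrArg (fun z => φ (θ z)) (hx N)
  simp only [map_sum, map_zero] at h10
  rw [Finset.sum_congr rfl fun a _ => h3 N a, ← Finset.mul_sum]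
  rw [Finset.sum_congr rfl fun a _ => (h1 N a).symm, h10, mul_zero]

/-- Module A: the relations have rank one. -/
theorem rel_parallel (M : Matrix (Fin d) (Fin d) ℤ)
    (hirr : Irreducible (M.charpoly.map (Int.castRingHom ℚ))) (r : ℝ)
    (hr : Polynomial.aeval (r : ℂ) M.charpoly = 0) (vol : Fin d → ℝ) (hv0 : vol ≠ 0)
    (hvol : ∀ i, ∑ j, (M i j : ℝ) * vol j = r * vol i) (Rel : Set (Fin d → GR d))
    (H : ∀ β : ℂ, Polynomial.aeval β M.charpoly = 0 → β ≠ r → ∀ w : Fin d → ℂ,
      (∀ j, ∑ i, w i * (M i j : ℂ) = β * w j) →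
      ∃ m : ℕ → Fin d → ℂ, (∀ a, m 0 a = vol a) ∧ ∀ x ∈ Rel, ∀ N, MomRel w m x N) :
    ∀ x ∈ Rel, ∀ y ∈ Rel, ∀ a b, x a * y b = x b * y a := by
  intro x hx y hy a b
  set P := M.charpoly.map (Int.castRingHom ℚ) with hP
  have hmon : P.Monic := M.charpoly_monic.map _
  have hdeg : P.natDegree = d := by
    rw [hP, M.charpoly_monic.natDegree_map, Matrix.charpoly_natDegree_eq_dim, Fintype.card_fin]
  have hPc : ∀ z : ℂ, Polynomial.aeval z P = Polynomial.aeval z M.charpoly := by
    intro z
    rw [hP, Polynomial.aeval_def, Polynomial.eval₂_map, Polynomial.aeval_def]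
    refine congrArg (fun g : ℤ →+* ℂ => Polynomial.eval₂ g z M.charpoly) ?_
    exact RingHom.ext_int _ _
  set ι : QB →ₐ[ℚ] ℂ := IsAlgClosed.lift with hι
  obtain ⟨rt, hrt, hrt1, hrt2⟩ := roots_enum hirr hdeg
  obtain ⟨lam, hlam, hlam1⟩ := lift_root ι hmon.ne_zero (z := (r : ℂ)) (by rw [hPc]; exact hr)
  -- the base root and its left eigenvector
  set i₀ : Fin d := a with hi₀
  have hMt : M.transpose.charpoly = M.charpoly := Matrix.charpoly_transpose M
  obtain ⟨w₀, hw₀, hw₀1⟩ := exists_R (M := M.transpose) (β := rt i₀) (by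
    rw [hMt]; exact hrt1 i₀)
  have hinj := pr_inj hirr (hrt1 i₀) hw₀ hw₀1
  -- the right eigenvector at the base root
  obtain ⟨V₀, hV₀, hV₀1⟩ := exists_R (M := M) (β := rt i₀) (hrt1 i₀)
  -- one functional
  obtain ⟨c, hc⟩ : ∃ c, vol c ≠ 0 := by
    by_contra h
    push Not at h
    exact hv0 (funext h)
  obtain ⟨θ, hθ1, hθ0⟩ := exists_theta (ι : QB →+* ℂ) (z := (vol c : ℂ))
    (Complex.ofReal_ne_zero.2 hc)
  have hθ : ∀ (k : QB) (y : ℂ), θ (ι k * y) = k * θ y := hθ1
  have hint : ∀ (n : ℤ) (z : ℂ), θ ((n : ℂ) * z) = (n : QB) * θ z := by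
    intro n z
    have := hθ (n : QB) z
    rwa [map_intCast] at this
  have key : ∀ i, i ≠ i₀ → ∃ G : Fin d → PowerSeries QB,
      (∑ a, ev w₀ (x a) * G a = 0) ∧ (∑ a, ev w₀ (y a) * G a = 0) ∧
      (fun a => PowerSeries.constantCoeff (G a)) ≠ 0 ∧
      IsR M (rt i) (fun a => PowerSeries.constantCoeff (G a)) := by
    intro i hi
    obtain ⟨φ, hφ⟩ := conj hirr hmon hlam1 (hrt1 i)
    have hβ : Polynomial.aeval (φ.symm (rt i₀)) P = 0 := by
      rw [Polynomial.aeval_algHom_apply φ.symm, hrt1, map_zero]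
    have hβ1 : Polynomial.aeval (ι (φ.symm (rt i₀))) M.charpoly = 0 := by
      rw [← hPc, Polynomial.aeval_algHom_apply, hβ, map_zero]
    have hβ2 : ι (φ.symm (rt i₀)) ≠ (r : ℂ) := by
      rw [← hlam]
      intro h
      have h1 := (ι : QB →+* ℂ).injective h
      have h2 : rt i₀ = φ lam := by rw [← h1, AlgEquiv.apply_symm_apply]
      rw [hφ] at h2
      exact hi (hrt h2.symm)
    obtain ⟨m, hm0, hm⟩ := H _ hβ1 hβ2 (fun j => ι (φ.symm (w₀ j))) (fun j => by
      have h := congrArg (fun t => ι (φ.symm t)) (hw₀1 j)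
      simp only [map_sum, map_mul, map_intCast] at h
      rw [← h]
      refine Finset.sum_congr rfl fun l _ => ?_
      rw [Matrix.transpose_apply, mul_comm])
    refine ⟨fun a => PowerSeries.mk fun n => φ (θ (m n a)) * algebraMap ℚ QB (1 / n.factorial),
      ?_, ?_, ?_, ?_⟩
    · exact transfer ι φ θ hθ w₀ m x (hm x hx)
    · exact transfer ι φ θ hθ w₀ m y (hm y hy)
    · intro h
      have h1 := congrFun h c
      simp only [Pi.zero_apply] at h1
      rw [← PowerSeries.coeff_zero_eq_constantCoeff_apply, PowerSeries.coeff_mk, hm0] at h1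
      simp at h1
      exact hθ0 h1
    · intro j
      have hcc : ∀ a, PowerSeries.constantCoeff
          (PowerSeries.mk fun n => φ (θ (m n a)) * algebraMap ℚ QB (1 / n.factorial)) =
          φ (θ (vol a)) := by
        intro a
        rw [← PowerSeries.coeff_zero_eq_constantCoeff_apply, PowerSeries.coeff_mk, hm0]
        simp
      have h := congrArg (fun t : ℝ => φ (θ (t : ℂ))) (hvol j)
      simp only [Complex.ofReal_sum, Complex.ofReal_mul, Complex.ofReal_intCast, map_sum, hint,
        map_mul, map_intCast] at h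
      simp only [hcc]
      rw [h, ← hlam, hθ, map_mul, hφ]
  choose! G hG1 hG2 hG3 hG4 using key
  set B : Matrix (Fin d) (Fin d) (PowerSeries QB) :=
    Matrix.of fun i c => if i = i₀ then PowerSeries.C (V₀ c) else G i c with hB
  have hBdet : B.det ≠ 0 := by
    intro h0
    have h1 : (B.map PowerSeries.constantCoeff).det = 0 := by
      have h2 := RingHom.map_det (PowerSeries.constantCoeff : PowerSeries QB →+* QB) B
      rw [h0, map_zero] at h2
      exact h2.symm
    have h3 : B.map PowerSeries.constantCoeff = Matrix.of (fun i =>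
        if i = i₀ then V₀ else fun c => PowerSeries.constantCoeff (G i c)) := by
      ext i c
      by_cases hi : i = i₀
      · simp [hB, hi]
      · simp [hB, hi]
    rw [h3] at h1
    refine det_ne (M := M) hrt (V := fun i =>
        if i = i₀ then V₀ else fun c => PowerSeries.constantCoeff (G i c)) ?_ ?_ h1
    · intro i
      by_cases hi : i = i₀
      · simp only [hi, if_true]
        exact hV₀
      · simp only [hi, if_false]
        exact hG3 i hi
    · intro i
      by_cases hi : i = i₀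
      · simp only [hi, if_true]
        exact hV₀1
      · simp only [hi, if_false]
        exact hG4 i hi
  have hpar := parallel hBdet i₀ (X := fun a => ev w₀ (x a)) (Y := fun a => ev w₀ (y a))
    (fun i hi => by
      rw [← hG1 i hi]
      refine Finset.sum_congr rfl fun c _ => ?_
      simp [hB, hi])
    (fun i hi => by
      rw [← hG2 i hi]
      refine Finset.sum_congr rfl fun c _ => ?_
      simp [hB, hi]) a b
  have hfin : ev w₀ (x a * y b - x b * y a) = 0 := by
    rw [map_sub, map_mul, map_mul, sub_eq_zero]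
    exact hpar
  exact sub_eq_zero.1 (ev_inj w₀ hinj _ hfin)

end Pool.Agent.PSC.H2
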