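import Pool.Agent.Helper95_PSC.Stmts
import Pool.Agent.Helper2_PSC.Rel

/-!
MP_e732b0_an, module GaloisStmt.
-/

set_option autoImplicit false

open Finset

namespace Pool.Agent.PSC.H2

variable {m : ℕ}

theorem evS_eq {K : Type} [Field K] [Algebra ℚ K] (W : Fin (m + 1) → K) (x : R m) :
    evS W x = ev W x := by
  rw [ev, AddMonoidAlgebra.lift_apply', evS, Finsupp.sum, Finsupp.sum]
  refine Finset.sum_congr rfl fun v _ => ?_
  rw [PowerSeries.algebraMap_apply]
  rfl

theorem coeff_tr (ι : QB →ₐ[ℚ] ℂ) (φ : QB ≃ₐ[ℚ] QB) (w : Fin (m + 1) → QB) (x : R m) (n : ℕ) :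
    PowerSeries.coeff n (ev (fun j => ι (φ.symm (w j))) x) =
      ι (φ.symm (PowerSeries.coeff n (ev w x))) := by
  rw [coeff_ev, coeff_ev, Finsupp.sum, Finsupp.sum, map_sum, map_sum]
  refine Finset.sum_congr rfl fun v _ => ?_
  rw [pr_tr, map_mul, map_mul, map_mul, map_mul, map_pow, map_pow, AlgEquiv.commutes,
    AlgHom.commutes, AlgEquiv.commutes, AlgHom.commutes]

theorem transfer2 (ι : QB →ₐ[ℚ] ℂ) (φ : QB ≃ₐ[ℚ] QB) (θ : ℂ →+ QB)
    (hθ : ∀ (k : QB) (y : ℂ), θ (ι k * y) = k * θ y) (w : Fin (m + 1) → QB)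
    (G : Fin (m + 1) → PowerSeries ℂ) (x : Fin (m + 1) → R m)
    (hx : ∑ a, evS (fun j => ι (φ.symm (w j))) (x a) * G a = 0) :
    ∑ a, ev w (x a) * PowerSeries.mk (fun n => φ (θ (PowerSeries.coeff n (G a)))) = 0 := by
  have hD : ∀ (k : QB) (z : ℂ), φ (θ (ι (φ.symm k) * z)) = k * φ (θ z) := by
    intro k z
    rw [hθ, map_mul, AlgEquiv.apply_symm_apply]
  ext N
  have h1 := congrArg (fun s => φ (θ (PowerSeries.coeff N s))) hx
  simp only [map_sum, map_zero, PowerSeries.coeff_mul, evS_eq, coeff_tr, hD] at h1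
  rw [map_sum, map_zero, ← h1]
  refine Finset.sum_congr rfl fun a _ => ?_
  rw [PowerSeries.coeff_mul]
  refine Finset.sum_congr rfl fun p _ => ?_
  rw [PowerSeries.coeff_mk]

/-- Module GaloisStmt. -/
theorem galois : GaloisStmt := by
  intro m M r hpis V hVpos hVeig x y H a b
  have hirr := hpis.irr
  have hr := hpis.root
  set P := M.charpoly.map (Int.castRingHom ℚ) with hP
  have hmon : P.Monic := M.charpoly_monic.map _
  have hdeg : P.natDegree = m + 1 := by
    rw [hP, M.charpoly_monic.natDegree_map, Matrix.charpoly_natDegree_eq_dim, Fintype.card_fin]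
  have hPc : ∀ z : ℂ, Polynomial.aeval z P = Polynomial.aeval z M.charpoly := by
    intro z
    rw [hP, Polynomial.aeval_def, Polynomial.eval₂_map, Polynomial.aeval_def]
    refine congrArg (fun g : ℤ →+* ℂ => Polynomial.eval₂ g z M.charpoly) ?_
    exact RingHom.ext_int _ _
  set ι : QB →ₐ[ℚ] ℂ := IsAlgClosed.lift with hι
  obtain ⟨rt, hrt, hrt1, hrt2⟩ := roots_enum hirr hdeg
  obtain ⟨lam, hlam, hlam1⟩ := lift_root ι hmon.ne_zero (z := (r : ℂ)) (by rw [hPc]; exact hr)
  -- the base root and its left eigenvector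
  set i₀ : Fin (m + 1) := a with hi₀
  have hMt : M.transpose.charpoly = M.charpoly := Matrix.charpoly_transpose M
  obtain ⟨w₀, hw₀, hw₀1⟩ := exists_R (M := M.transpose) (β := rt i₀) (by
    rw [hMt]; exact hrt1 i₀)
  have hinj := pr_inj hirr (hrt1 i₀) hw₀ hw₀1
  obtain ⟨V₀, hV₀, hV₀1⟩ := exists_R (M := M) (β := rt i₀) (hrt1 i₀)
  obtain ⟨θ, hθ1, hθ0⟩ := exists_theta (ι : QB →+* ℂ) (z := (V a : ℂ))
    (Complex.ofReal_ne_zero.2 (hVpos a).ne')
  have hθ : ∀ (k : QB) (y : ℂ), θ (ι k * y) = k * θ y := hθ1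
  have hint : ∀ (n : ℤ) (z : ℂ), θ ((n : ℂ) * z) = (n : QB) * θ z := by
    intro n z
    have := hθ (n : QB) z
    rwa [map_intCast] at this
  have key : ∀ i, i ≠ i₀ → ∃ G : Fin (m + 1) → PowerSeries QB,
      (∑ a, ev w₀ (x a) * G a = 0) ∧ (∑ a, ev w₀ (y a) * G a = 0) ∧
      (fun a => PowerSeries.constantCoeff (G a)) ≠ 0 ∧
      IsR M (rt i) (fun a => PowerSeries.constantCoeff (G a)) := by
    intro i hi
    obtain ⟨φ, hφ⟩ := conj hirr hmon hlam1 (hrt1 i)
    have hβ : Polynomial.aeval (φ.symm (rt i₀)) P = 0 := by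
      rw [Polynomial.aeval_algHom_apply φ.symm, hrt1, map_zero]
    have hβ1 : Polynomial.aeval (ι (φ.symm (rt i₀))) M.charpoly = 0 := by
      rw [← hPc, Polynomial.aeval_algHom_apply, hβ, map_zero]
    have hβ2 : ι (φ.symm (rt i₀)) ≠ (r : ℂ) := by
      rw [← hlam]
      intro h
      have h1 := (ι : QB →+* ℂ).injective h
      have h2 : rt i₀ = φ lam := by rw [← h1, AlgEquiv.apply_symm_apply]
      rw [hφ] at h2
      exact hi (hrt h2.symm)
    obtain ⟨G, hG0, hGx, hGy⟩ := H _ hβ1 hβ2 (fun j => ι (φ.symm (w₀ j))) (fun j => by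
      have h := congrArg (fun t => ι (φ.symm t)) (hw₀1 j)
      simp only [map_sum, map_mul, map_intCast] at h
      rw [← h]
      refine Finset.sum_congr rfl fun l _ => ?_
      rw [Matrix.transpose_apply, mul_comm])
    have hcc : ∀ c, PowerSeries.constantCoeff
        (PowerSeries.mk fun n => φ (θ (PowerSeries.coeff n (G c)))) = φ (θ (V c)) := by
      intro c
      rw [← PowerSeries.coeff_zero_eq_constantCoeff_apply, PowerSeries.coeff_mk,
        PowerSeries.coeff_zero_eq_constantCoeff_apply, hG0]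
    refine ⟨fun c => PowerSeries.mk fun n => φ (θ (PowerSeries.coeff n (G c))), ?_, ?_, ?_, ?_⟩
    · exact transfer2 ι φ θ hθ w₀ G x hGx
    · exact transfer2 ι φ θ hθ w₀ G y hGy
    · intro h
      have h1 := congrFun h a
      rw [Pi.zero_apply] at h1
      rw [hcc, map_eq_zero] at h1
      exact hθ0 h1
    · intro j
      have h := congrArg (fun t : ℝ => φ (θ (t : ℂ))) (hVeig j)
      simp only [Complex.ofReal_sum, Complex.ofReal_mul, Complex.ofReal_intCast, map_sum, hint,
        map_mul, map_intCast] at h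
      simp only [hcc]
      rw [h, ← hlam, hθ, map_mul, hφ]
  choose! G hG1 hG2 hG3 hG4 using key
  set B : Matrix (Fin (m + 1)) (Fin (m + 1)) (PowerSeries QB) :=
    Matrix.of fun i c => if i = i₀ then PowerSeries.C (V₀ c) else G i c with hB
  have hBdet : B.det ≠ 0 := by
    intro h0
    have h1 : (B.map PowerSeries.constantCoeff).det = 0 := by
      have h2 := RingHom.map_det (PowerSeries.constantCoeff : PowerSeries QB →+* QB) B
      rw [h0, map_zero] at h2
      exact h2.symm
    have h3 : B.map PowerSeries.constantCoeff = Matrix.of (fun i =>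
        if i = i₀ then V₀ else fun c => PowerSeries.constantCoeff (G i c)) := by
      ext i c
      by_cases hi : i = i₀
      · simp [hB, hi]
      · simp [hB, hi]
    rw [h3] at h1
    refine det_ne (M := M) hrt (V := fun i =>
        if i = i₀ then V₀ else fun c => PowerSeries.constantCoeff (G i c)) ?_ ?_ h1
    · intro i
      by_cases hi : i = i₀
      · simp only [hi, if_true]
        exact hV₀
      · simp only [hi, if_false]
        exact hG3 i hi
    · intro i
      by_cases hi : i = i₀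
      · simp only [hi, if_true]
        exact hV₀1
      · simp only [hi, if_false]
        exact hG4 i hi
  have hpar := parallel hBdet i₀ (X := fun a => ev w₀ (x a)) (Y := fun a => ev w₀ (y a))
    (fun i hi => by
      rw [← hG1 i hi]
      refine Finset.sum_congr rfl fun c _ => ?_
      simp [hB, hi])
    (fun i hi => by
      rw [← hG2 i hi]
      refine Finset.sum_congr rfl fun c _ => ?_
      simp [hB, hi]) a b
  have hfin : ev w₀ (x a * y b - x b * y a) = 0 := by
    rw [map_sub, map_mul, map_mul, sub_eq_zero]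
    exact hpar
  exact sub_eq_zero.1 (ev_inj w₀ hinj _ hfin)

end Pool.Agent.PSC.H2
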