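import Pool.Agent.Helper95_PSC.Stmts

/-!
MP_e732b0_an, module HidStmt.
-/

set_option autoImplicit false

open MeasureTheory
open Pool.Agent.Helper40_Pisot

namespace Pool.Agent.PSC.H2

section act

variable {m : ℕ} (α : Fin (m + 1) → ℝ)

theorem pr_add' (v w : Lat m) : PSC.pr α (v + w) = PSC.pr α v + PSC.pr α w := by
  funext i
  simp only [PSC.pr, Pi.add_apply, Int.cast_add, Finset.sum_add_distrib]
  ring

theorem pr_zero' : PSC.pr α (0 : Lat m) = 0 := by
  funext i
  simp [PSC.pr]

theorem pr_neg' (v : Lat m) : PSC.pr α (-v) = -PSC.pr α v := by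
  funext i
  simp only [PSC.pr, Pi.neg_apply, Int.cast_neg, Finset.sum_neg_distrib]
  ring

/-- translation operators -/
noncomputable def trop : Multiplicative (Lat m) →* Module.End ℚ (E m → ℝ) where
  toFun v :=
    { toFun := fun g y => g (y - PSC.pr α v.toAdd)
      map_add' := fun _ _ => rfl
      map_smul' := fun _ _ => rfl }
  map_one' := by
    refine LinearMap.ext fun g => funext fun y => ?_
    change g (y - PSC.pr α 0) = g y
    rw [pr_zero', sub_zero]
  map_mul' v w := by
    refine LinearMap.ext fun g => funext fun y => ?_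
    change g (y - PSC.pr α (v.toAdd + w.toAdd)) = g (y - PSC.pr α v.toAdd - PSC.pr α w.toAdd)
    rw [pr_add', sub_sub]

/-- the action as an algebra homomorphism -/
noncomputable def actH : R m →ₐ[ℚ] Module.End ℚ (E m → ℝ) :=
  AddMonoidAlgebra.lift ℚ (Module.End ℚ (E m → ℝ)) (Lat m) (trop α)

theorem act_eq (x : R m) (g : E m → ℝ) : act α x g = actH α x g := by
  funext y
  rw [act, actH, AddMonoidAlgebra.lift_apply, Finsupp.sum, Finsupp.sum, LinearMap.sum_apply,
    Finset.sum_apply]
  refine Finset.sum_congr rfl fun v _ => ?_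
  rw [LinearMap.smul_apply, Pi.smul_apply, Rat.smul_def]
  rfl

theorem actH_mon (v : Lat m) (g : E m → ℝ) (y : E m) :
    actH α (mon v) g y = g (y - PSC.pr α v) := by
  rw [actH, mon, AddMonoidAlgebra.lift_single, one_smul]
  rfl

theorem act_congr {g g' : E m → ℝ} (h : g =ᵐ[volume] g') (x : R m) :
    actH α x g =ᵐ[volume] actH α x g' := by
  have h1 : ∀ v : Lat m, ∀ᵐ y ∂(volume : Measure (E m)), g (y - PSC.pr α v) = g' (y - PSC.pr α v) := by
    intro v
    have h2 := (measurePreserving_sub_right (volume : Measure (E m)) (PSC.pr α v)).quasiMeasurePreserving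
    exact h2.ae h
  have h3 := ae_all_iff.2 h1
  filter_upwards [h3] with y hy
  rw [← act_eq, ← act_eq, act, act, Finsupp.sum, Finsupp.sum]
  exact Finset.sum_congr rfl fun v _ => by rw [hy v]

end act

section comb

variable {m : ℕ}

open scoped Classical in
theorem mem_trS {v : Lat m} {C : Finset (Face m)} {F : Face m} :
    F ∈ trS v C ↔ tr (-v) F ∈ C := by
  rw [trS, Finset.mem_image]
  constructor
  · rintro ⟨G, hG, rfl⟩
    have : tr (-v) (tr v G) = G := by
      refine Prod.ext ?_ rfl
      change -v + (v + G.1) = G.1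
      abel
    rw [this]
    exact hG
  · intro h
    refine ⟨_, h, Prod.ext ?_ rfl⟩
    change v + (-v + F.1) = F.1
    abel

theorem tr_tr (v w : Lat m) (F : Face m) : tr v (tr w F) = tr (v + w) F := by
  refine Prod.ext ?_ rfl
  change v + (w + F.1) = v + w + F.1
  abel

theorem tr_zero (F : Face m) : tr 0 F = F := by
  refine Prod.ext ?_ rfl
  change 0 + F.1 = F.1
  abel

theorem trS_trS (v w : Lat m) (C : Finset (Face m)) : trS v (trS w C) = trS (v + w) C := by
  ext F
  rw [mem_trS, mem_trS, mem_trS, tr_tr]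
  have : -w + -v = -(v + w) := by abel
  rw [this]

theorem trS_zero (C : Finset (Face m)) : trS 0 C = C := by
  ext F
  rw [mem_trS, neg_zero, tr_zero]

theorem ht_add (l : Fin (m + 1) → ℝ) (v w : Lat m) : ht l (v + w) = ht l v + ht l w := by
  simp only [ht, Pi.add_apply, Int.cast_add, mul_add, Finset.sum_add_distrib]

theorem alive_tr (l : Fin (m + 1) → ℝ) (t : ℝ) (v : Lat m) (F : Face m) :
    Alive l t (tr v F) ↔ Alive l (t - ht l v) F := by
  unfold Alive
  change ht l (v + F.1) ≤ t ∧ t < ht l (v + F.1) + l F.2 ↔ _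
  rw [ht_add]
  constructor
  · rintro ⟨h1, h2⟩
    exact ⟨by linarith, by linarith⟩
  · rintro ⟨h1, h2⟩
    exact ⟨by linarith, by linarith⟩

theorem aliveS_tr (l : Fin (m + 1) → ℝ) (t : ℝ) (v : Lat m) (C : Finset (Face m)) :
    AliveS l t (trS v C) ↔ AliveS l (t - ht l v) C := by
  constructor
  · intro h F hF
    have h1 := h (tr v F) (by
      rw [mem_trS, tr_tr, neg_add_cancel, tr_zero]
      exact hF)
    rwa [alive_tr] at h1
  · intro h F hF
    rw [mem_trS] at hF
    have h1 := h _ hF
    rw [alive_tr] at h1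
    have : t - ht l v - ht l (-v) = t := by
      have h2 := ht_add l v (-v)
      rw [add_neg_cancel] at h2
      have h3 : ht l (0 : Lat m) = 0 := by simp [ht]
      rw [h3] at h2
      linarith
    rwa [this] at h1

/-- base point of a nonempty set of faces -/
noncomputable def bp (C : Finset (Face m)) : Lat m :=
  if h : C.Nonempty then fun i => C.inf' h (fun F => F.1 i) else 0

theorem bp_le {C : Finset (Face m)} {F : Face m} (hF : F ∈ C) (i : Fin (m + 1)) :
    bp C i ≤ F.1 i := by
  have h : C.Nonempty := ⟨F, hF⟩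
  rw [bp, dif_pos h]
  exact Finset.inf'_le _ hF

theorem exists_bp {C : Finset (Face m)} (h : C.Nonempty) (i : Fin (m + 1)) :
    ∃ F ∈ C, bp C i = F.1 i := by
  rw [bp, dif_pos h]
  obtain ⟨F, hF, hF2⟩ := Finset.exists_mem_eq_inf' h (fun F : Face m => F.1 i)
  exact ⟨F, hF, hF2⟩

theorem bp_trS {C : Finset (Face m)} (h : C.Nonempty) (v : Lat m) :
    bp (trS v C) = v + bp C := by
  funext i
  have h' : (trS v C).Nonempty := by
    obtain ⟨F, hF⟩ := h
    exact ⟨tr v F, by
      rw [mem_trS, tr_tr, neg_add_cancel, tr_zero]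
      exact hF⟩
  refine le_antisymm ?_ ?_
  · obtain ⟨F, hF, hF2⟩ := exists_bp h i
    have h1 : tr v F ∈ trS v C := by
      rw [mem_trS, tr_tr, neg_add_cancel, tr_zero]
      exact hF
    rw [Pi.add_apply, hF2]
    exact bp_le h1 i
  · obtain ⟨F, hF, hF2⟩ := exists_bp h' i
    rw [mem_trS] at hF
    have h1 := bp_le hF i
    have h2 : (tr (-v) F).1 i = - v i + F.1 i := rfl
    rw [h2] at h1
    rw [Pi.add_apply, hF2]
    linarith

/-- normal form -/
noncomputable def nf (C : Finset (Face m)) : Finset (Face m) := trS (-bp C) C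

theorem nf_trS {C : Finset (Face m)} (h : C.Nonempty) (v : Lat m) : nf (trS v C) = nf C := by
  rw [nf, nf, bp_trS h, trS_trS]
  refine congrArg (fun w => trS w C) ?_
  abel

theorem trS_nf (C : Finset (Face m)) : trS (bp C) (nf C) = C := by
  rw [nf, trS_trS, add_neg_cancel, trS_zero]

/-- the faces in a box -/
def box (K : ℤ) : Set (Face m) := {F | ∀ i, |F.1 i| ≤ K}

theorem box_finite (K : ℤ) : (box K : Set (Face m)).Finite := by
  have h1 : (Set.Icc (fun _ => -K) (fun _ => K) : Set (Lat m)).Finite := Set.finite_Icc _ _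
  have h2 := h1.prod (Set.finite_univ (α := Fin (m + 1)))
  refine h2.subset fun F hF => ⟨⟨fun i => (abs_le.1 (hF i)).1, fun i => (abs_le.1 (hF i)).2⟩,
    Set.mem_univ _⟩

end comb

section main

variable {m : ℕ} {σ : Fin (m + 1) → List (Fin (m + 1))} {M : Matrix (Fin (m + 1)) (Fin (m + 1)) ℤ}
  {r : ℝ} {α l : Fin (m + 1) → ℝ} {a0 : Fin (m + 1)} {x0 : ℤ → Fin (m + 1)}

theorem ind_tI_trS (htr : ∀ (v : Lat m) (F : Face m),
      tile σ α x0 (tr v F) = (fun y => PSC.pr α v + y) '' tile σ α x0 F)
    (v : Lat m) (C : Finset (Face m)) (y : E m) :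
    ind (tI σ α x0 (trS v C)) y = ind (tI σ α x0 C) (y - PSC.pr α v) := by
  have h1 : y ∈ tI σ α x0 (trS v C) ↔ y - PSC.pr α v ∈ tI σ α x0 C := by
    rw [tI, tI, Set.mem_iInter₂, Set.mem_iInter₂]
    have h2 : ∀ F : Face m, y ∈ tile σ α x0 (tr v F) ↔ y - PSC.pr α v ∈ tile σ α x0 F := by
      intro F
      rw [htr]
      constructor
      · rintro ⟨z, hz, rfl⟩
        have : PSC.pr α v + z - PSC.pr α v = z := by abel
        change PSC.pr α v + z - PSC.pr α v ∈ _
        rw [this]
        exact hz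
      · intro h
        refine ⟨_, h, ?_⟩
        change PSC.pr α v + (y - PSC.pr α v) = y
        abel
    constructor
    · intro h F hF
      rw [← h2]
      refine h _ ?_
      rw [mem_trS, tr_tr, neg_add_cancel, tr_zero]
      exact hF
    · intro h F hF
      rw [mem_trS] at hF
      have h3 := h _ hF
      rw [← h2, tr_tr, add_neg_cancel, tr_zero] at h3
      exact h3
  unfold ind
  by_cases h : y ∈ tI σ α x0 (trS v C)
  · rw [Set.indicator_of_mem h, Set.indicator_of_mem (h1.1 h)]
  · rw [Set.indicator_of_notMem h, Set.indicator_of_notMem (fun h' => h (h1.2 h'))]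

/-- The indicator function of a tile is the sum over the cliques. -/
theorem ind_tile {k : ℕ} (t : ℝ)
    (hcov : ∀ᵐ y ∂(volume : Measure (E m)), ∃ C : Finset (Face m), Clique σ α l x0 k C ∧
      ∀ F, F ∈ C ↔ (Alive l t F ∧ y ∈ tile σ α x0 F))
    (F : Face m) (hF : Alive l t F) (S : Finset (Finset (Face m)))
    (hS : ∀ C, C ∈ S ↔ Clique σ α l x0 k C ∧ AliveS l t C ∧ F ∈ C) :
    ind (tile σ α x0 F) =ᵐ[volume] ∑ C ∈ S, ind (tI σ α x0 C) := by
  filter_upwards [hcov] with y hy
  obtain ⟨C0, hC0, hC0'⟩ := hy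
  rw [Finset.sum_apply]
  have hiff : ∀ C ∈ S, (y ∈ tI σ α x0 C ↔ C = C0) := by
    intro C hC
    obtain ⟨h1, h2, h3⟩ := (hS C).1 hC
    rw [tI, Set.mem_iInter₂]
    constructor
    · intro h
      have hsub : C ⊆ C0 := fun G hG => (hC0' G).2 ⟨h2 G hG, h G hG⟩
      exact Finset.eq_of_subset_of_card_le hsub (by rw [h1.1, hC0.1])
    · rintro rfl G hG
      exact ((hC0' G).1 hG).2
  by_cases hy : y ∈ tile σ α x0 F
  · have hC0S : C0 ∈ S := by
      rw [hS]
      exact ⟨hC0, fun G hG => ((hC0' G).1 hG).1, (hC0' F).2 ⟨hF, hy⟩⟩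
    rw [Finset.sum_eq_single C0]
    · rw [ind, ind, Set.indicator_of_mem hy, Set.indicator_of_mem ((hiff C0 hC0S).2 rfl)]
    · intro C hC hne
      rw [ind, Set.indicator_of_notMem]
      exact fun h => hne ((hiff C hC).1 h)
    · intro h
      exact absurd hC0S h
  · rw [ind, Set.indicator_of_notMem hy, Finset.sum_eq_zero]
    intro C hC
    rw [ind, Set.indicator_of_notMem]
    intro h
    rw [tI, Set.mem_iInter₂] at h
    exact hy (h F ((hS C).1 hC).2.2)

/-- Module HidStmt. -/
theorem hid (hRel : RelStmt) (hLin : LinAlgStmt) (hNov : NovStmt) (hCl : CliqueStmt)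
    (hTile : TileStmt) (hLat : LatAStmt) : HidStmt := by
  classical
  intro m σ M r α l a0 x0 D k hk hmult H
  obtain ⟨⟨K, hK⟩, hcov, htrC, -⟩ := hCl m σ M r α l a0 x0 D k hk hmult
  obtain ⟨-, htr, -, -, -⟩ := hTile m σ M r α l a0 x0 D
  obtain ⟨hinj, -, -⟩ := hLat m σ M r α l a0 x0 D
  have hne : ∀ C, Clique σ α l x0 k C → C.Nonempty := by
    intro C hC
    rw [← Finset.card_pos, hC.1]
    exact hk
  have hK0 : ∀ C, Clique σ α l x0 k C → 0 ≤ K := by
    intro C hC
    obtain ⟨F, hF⟩ := hne C hC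
    have := hK C hC F hF F hF 0
    simpa using this
  -- types
  set Tset : Set (Finset (Face m)) := {C | Clique σ α l x0 k C ∧ bp C = 0} with hTset
  have hTfin : Tset.Finite := by
    have h1 := (box_finite (m := m) K).finite_subsets
    have h2 : (Set.Finite {C : Finset (Face m) | (C : Set (Face m)) ⊆ box K}) := by
      refine Set.Finite.of_finite_image (f := fun C : Finset (Face m) => (C : Set (Face m))) ?_ ?_
      · exact h1.subset (by
          rintro _ ⟨C, hC, rfl⟩
          exact hC)
      · intro C _ C' _ h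
        exact Finset.coe_injective h
    refine h2.subset fun C hC F hF i => ?_
    obtain ⟨G, hG, hG2⟩ := exists_bp (hne C hC.1) i
    have h3 := hK C hC.1 F hF G hG i
    rw [← hG2, hC.2, Pi.zero_apply, sub_zero] at h3
    exact h3
  have hTft : Fintype Tset := hTfin.fintype
  have hnf : ∀ C, Clique σ α l x0 k C → nf C ∈ Tset := by
    intro C hC
    refine ⟨htrC _ _ hC, ?_⟩
    rw [nf, bp_trS (hne C hC), neg_add_cancel]
  -- patterns
  set Pset : Set (Fin (m + 1) × Finset (Finset (Face m))) := {p | ∃ t, Alive l t ((0 : Lat m), p.1) ∧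
    ∀ C, C ∈ p.2 ↔ Clique σ α l x0 k C ∧ AliveS l t C ∧ ((0 : Lat m), p.1) ∈ C} with hPset
  have hPfin : Pset.Finite := by
    have h1 := (box_finite (m := m) K).finite_subsets
    have h2 : (Set.Finite {C : Finset (Face m) | (C : Set (Face m)) ⊆ box K}) := by
      refine Set.Finite.of_finite_image (f := fun C : Finset (Face m) => (C : Set (Face m))) ?_ ?_
      · exact h1.subset (by
          rintro _ ⟨C, hC, rfl⟩
          exact hC)
      · intro C _ C' _ h
        exact Finset.coe_injective h
    have h3 := h2.finite_subsets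
    have h4 : (Set.Finite {S : Finset (Finset (Face m)) | (S : Set (Finset (Face m))) ⊆
        {C : Finset (Face m) | (C : Set (Face m)) ⊆ box K}}) := by
      refine Set.Finite.of_finite_image
        (f := fun C : Finset (Finset (Face m)) => (C : Set (Finset (Face m)))) ?_ ?_
      · exact h3.subset (by
          rintro _ ⟨C, hC, rfl⟩
          exact hC)
      · intro C _ C' _ h
        exact Finset.coe_injective h
    have h5 := (Set.finite_univ (α := Fin (m + 1))).prod h4
    refine h5.subset fun p hp => ⟨Set.mem_univ _, fun C hC F hF i => ?_⟩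
    obtain ⟨t, -, ht2⟩ := hp
    obtain ⟨h6, -, h7⟩ := (ht2 C).1 hC
    have h8 := hK C h6 F hF _ h7 i
    change |F.1 i - 0| ≤ K at h8
    rw [sub_zero] at h8
    exact h8
  have hPft : Fintype Pset := hPfin.fintype
  -- the matrix
  set ρ : Pset → Tset → R m := fun p τ =>
    ∑ C ∈ p.1.2.filter (fun C => nf C = τ.1), mon (bp C) with hρ
  -- sums over the cliques of a pattern
  have hfib : ∀ (B : Type) [AddCommMonoid B] (p : Pset) (g : Finset (Face m) → Finset (Face m) → B),
      ∑ τ : Tset, ∑ C ∈ p.1.2.filter (fun C => nf C = τ.1), g C τ.1 = ∑ C ∈ p.1.2, g C (nf C) := by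
    intro B _ p g
    have h1 : ∀ C ∈ p.1.2, nf C ∈ Tset := by
      intro C hC
      obtain ⟨t, -, ht2⟩ := p.2
      exact hnf C ((ht2 C).1 hC).1
    simp only [Finset.sum_filter]
    rw [Finset.sum_comm]
    refine Finset.sum_congr rfl fun C hC => ?_
    rw [Finset.sum_eq_single ⟨nf C, h1 C hC⟩]
    · simp
    · intro τ _ hτ
      rw [if_neg]
      intro h
      exact hτ (Subtype.ext h.symm)
    · intro h
      exact absurd (Finset.mem_univ _) h
  have hcrit : ∀ y : Pset → R m, (∀ τ, ∑ p, y p * ρ p τ = 0) →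
      ∀ κ : Fin (m + 1) × Fin (m + 1), ∑ p : Pset, y p * wdg p.1.1 κ.1 κ.2 = 0 := by
    intro y hy κ
    set x : Fin (m + 1) → R m := fun c => ∑ p : Pset, if p.1.1 = c then y p else 0 with hx
    have hxs : ∀ (B : Type) [AddCommMonoid B] (g : Fin (m + 1) → (R m →+ B)),
        ∑ c, g c (x c) = ∑ p : Pset, g p.1.1 (y p) := by
      intro B _ g
      simp only [hx, map_sum]
      rw [Finset.sum_comm]
      refine Finset.sum_congr rfl fun p _ => ?_
      rw [Finset.sum_eq_single p.1.1]
      · simp
      · intro c _ hc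
        rw [if_neg (Ne.symm hc), map_zero]
      · intro h
        exact absurd (Finset.mem_univ _) h
    have hxrel : Rel σ α x0 x := by
      have h1 : ∀ p : Pset, actH α (y p) (ind (tile σ α x0 ((0 : Lat m), p.1.1))) =ᵐ[volume]
          actH α (y p) (∑ C ∈ p.1.2, ind (tI σ α x0 C)) := by
        intro p
        obtain ⟨t, ht1, ht2⟩ := p.2
        exact act_congr α (ind_tile t (hcov t) _ ht1 _ ht2) (y p)
      have h2 : ∀ᵐ z ∂(volume : Measure (E m)), ∀ p : Pset,
          actH α (y p) (ind (tile σ α x0 ((0 : Lat m), p.1.1))) z =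
          actH α (y p) (∑ C ∈ p.1.2, ind (tI σ α x0 C)) z := ae_all_iff.2 h1
      filter_upwards [h2] with z hz
      have e1 := hxs (E m → ℝ) (fun c =>
        { toFun := fun u => actH α u (ind (tile σ α x0 ((0 : Lat m), c)))
          map_zero' := by rw [map_zero]; rfl
          map_add' := fun u v => by rw [map_add]; rfl })
      have e2 := congrFun e1 z
      rw [Finset.sum_apply, Finset.sum_apply] at e2
      have e3 : ∑ a, act α (x a) (ind (tile σ α x0 ((0 : Lat m), a))) z =
          ∑ p : Pset, actH α (y p) (ind (tile σ α x0 ((0 : Lat m), p.1.1))) z := by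
        have e3' : ∀ c, act α (x c) (ind (tile σ α x0 ((0 : Lat m), c))) z =
            actH α (x c) (ind (tile σ α x0 ((0 : Lat m), c))) z := fun c => by rw [act_eq]
        rw [Finset.sum_congr rfl fun c _ => e3' c]
        exact e2
      rw [e3, Finset.sum_congr rfl fun p _ => hz p]
      have e4 : ∀ p : Pset, actH α (y p) (∑ C ∈ p.1.2, ind (tI σ α x0 C)) =
          ∑ τ : Tset, actH α (y p * ρ p τ) (ind (tI σ α x0 τ.1)) := by
        intro p
        have e5 := hfib (E m → ℝ) p (fun C C' => actH α (y p * mon (bp C)) (ind (tI σ α x0 C')))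
        have e6 : ∀ τ : Tset, ∑ C ∈ p.1.2.filter (fun C => nf C = τ.1),
            actH α (y p * mon (bp C)) (ind (tI σ α x0 τ.1)) =
            actH α (y p * ρ p τ) (ind (tI σ α x0 τ.1)) := by
          intro τ
          rw [hρ]
          simp only []
          rw [Finset.mul_sum, map_sum, LinearMap.sum_apply]
        rw [Finset.sum_congr rfl fun τ _ => (e6 τ).symm, e5, map_sum]
        refine Finset.sum_congr rfl fun C _ => ?_
        rw [map_mul, Module.End.mul_apply]
        refine congrArg _ (funext fun w => ?_)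
        rw [actH_mon, ← ind_tI_trS htr, trS_nf]
      rw [Finset.sum_congr rfl fun p _ => congrFun (e4 p) z]
      have e7 : ∑ p : Pset, ∑ τ : Tset, actH α (y p * ρ p τ) (ind (tI σ α x0 τ.1)) = 0 := by
        rw [Finset.sum_comm]
        refine Finset.sum_eq_zero fun τ _ => ?_
        have e8 : ∑ p : Pset, actH α (y p * ρ p τ) (ind (tI σ α x0 τ.1)) =
            actH α (∑ p : Pset, y p * ρ p τ) (ind (tI σ α x0 τ.1)) := by
          rw [map_sum, LinearMap.sum_apply]
        rw [e8, hy τ, map_zero]
        rfl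
      have e9 := congrFun e7 z
      rw [Finset.sum_apply] at e9
      exact e9
    have h3 := hRel m σ M r α l a0 x0 D x hxrel κ.1 κ.2
    have h4 := hxs (R m) (fun c => AddMonoidHom.mulRight (wdg c κ.1 κ.2))
    simp only [AddMonoidHom.coe_mulRight] at h4
    rw [← h4]
    simp only [wdg, mul_sub, Finset.sum_sub_distrib, mul_ite, mul_zero]
    rw [Finset.sum_ite_eq' Finset.univ κ.1 (fun c => x c * uv κ.2),
      Finset.sum_ite_eq' Finset.univ κ.2 (fun c => x c * uv κ.1)]
    simp only [Finset.mem_univ, if_true]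
    rw [h3, sub_self]
  obtain ⟨f, hf0, L0, hL0⟩ := hLin (R m) Tset Pset (Fin (m + 1) × Fin (m + 1)) ρ
    (fun p κ => wdg p.1.1 κ.1 κ.2) hcrit
  obtain ⟨g, q, hgq, hq⟩ := hNov m l hinj f hf0 H
  set L1 : Fin (m + 1) → Fin (m + 1) → Finset (Face m) → R m := fun a b C =>
    if h : C ∈ Tset then g * L0 ⟨C, h⟩ (a, b) else 0 with hL1
  have hmon : ∀ v w : Lat m, mon v * mon w = mon (v + w) := by
    intro v w
    rw [mon, mon, AddMonoidAlgebra.single_mul_single, one_mul]
    rfl
  -- the bound for the supports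
  obtain ⟨B, hB⟩ : ∃ B : ℤ, ∀ (τ : Tset) (a b : Fin (m + 1)),
      ∀ v ∈ (g * L0 τ (a, b)).coeff.support, ∀ i, |v i| ≤ B := by
    have h1 : (Set.Finite (⋃ τ : Tset, ⋃ a : Fin (m + 1), ⋃ b : Fin (m + 1), ⋃ i : Fin (m + 1),
        (fun v : Lat m => |v i|) '' ((g * L0 τ (a, b)).coeff.support : Set (Lat m)))) := by
      refine Set.finite_iUnion fun τ => Set.finite_iUnion fun a => Set.finite_iUnion fun b =>
        Set.finite_iUnion fun i => ?_
      exact (Finset.finite_toSet _).image _
    obtain ⟨B, hB⟩ := h1.bddAbove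
    refine ⟨B, fun τ a b v hv i => hB ?_⟩
    simp only [Set.mem_iUnion]
    exact ⟨τ, a, b, i, v, hv, rfl⟩
  refine ⟨q, B + K, fun C a b => mon (bp C) * L1 a b (nf C), hq, ?_, ?_⟩
  · intro C hC a b v hv F hF i
    have h1 : (mon (bp C) * L1 a b (nf C)).coeff v = (L1 a b (nf C)).coeff (-bp C + v) := by
      rw [mon, AddMonoidAlgebra.coeff_single_mul_apply, one_mul]
    rw [Finsupp.mem_support_iff, h1, hL1] at hv
    simp only [] at hv
    rw [dif_pos (hnf C hC)] at hv
    have h2 := hB _ a b _ (Finsupp.mem_support_iff.2 hv) i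
    obtain ⟨G, hG, hG2⟩ := exists_bp (hne C hC) i
    have h3 := hK C hC F hF G hG i
    rw [← hG2] at h3
    rw [Pi.add_apply, Pi.neg_apply] at h2
    rw [abs_le] at h2 h3 ⊢
    constructor
    · linarith [h2.1, h3.2]
    · linarith [h2.2, h3.1]
  · intro t F hF S hS a b
    have hp : ((F.2, S.image (trS (-F.1))) : Fin (m + 1) × Finset (Finset (Face m))) ∈ Pset := by
      refine ⟨t - ht l F.1, ?_, fun C => ?_⟩
      · rw [← alive_tr]
        have : tr F.1 ((0 : Lat m), F.2) = F := by
          refine Prod.ext ?_ rfl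
          change F.1 + 0 = F.1
          abel
        rw [this]
        exact hF
      · have h1 : C ∈ S.image (trS (-F.1)) ↔ trS F.1 C ∈ S := by
          rw [Finset.mem_image]
          constructor
          · rintro ⟨C', hC', rfl⟩
            rw [trS_trS, add_neg_cancel, trS_zero]
            exact hC'
          · intro h
            exact ⟨_, h, by rw [trS_trS, neg_add_cancel, trS_zero]⟩
        change C ∈ S.image (trS (-F.1)) ↔ _
        rw [h1, hS, aliveS_tr, mem_trS]
        have h2 : tr (-F.1) F = ((0 : Lat m), F.2) := by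
          refine Prod.ext ?_ rfl
          change -F.1 + F.1 = 0
          abel
        rw [h2]
        have h3 : Clique σ α l x0 k (trS F.1 C) ↔ Clique σ α l x0 k C := by
          constructor
          · intro h
            have := htrC (-F.1) _ h
            rwa [trS_trS, neg_add_cancel, trS_zero] at this
          · exact htrC _ _
        rw [h3]
    have h4 := hL0 ⟨_, hp⟩ (a, b)
    change f * wdg F.2 a b = ∑ τ : Tset, ρ ⟨_, hp⟩ τ * L0 τ (a, b) at h4
    have h5 : ∑ τ : Tset, ρ ⟨_, hp⟩ τ * (g * L0 τ (a, b)) =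
        ∑ C ∈ S.image (trS (-F.1)), mon (bp C) * L1 a b (nf C) := by
      have h6 := hfib (R m) ⟨_, hp⟩ (fun C C' => mon (bp C) * L1 a b C')
      rw [← h6]
      refine Finset.sum_congr rfl fun τ _ => ?_
      rw [hρ]
      simp only []
      rw [Finset.sum_mul]
      refine Finset.sum_congr rfl fun C _ => ?_
      rw [hL1]
      simp only []
      rw [dif_pos τ.2]
    have h7 : ∑ C ∈ S.image (trS (-F.1)), mon (bp C) * L1 a b (nf C) =
        ∑ C ∈ S, mon (-F.1) * (mon (bp C) * L1 a b (nf C)) := by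
      rw [Finset.sum_image]
      · refine Finset.sum_congr rfl fun C hC => ?_
        have hCne := hne C ((hS C).1 hC).1
        rw [bp_trS hCne, nf_trS hCne, ← hmon, mul_assoc]
      · intro C _ C' _ h
        have := congrArg (trS F.1) h
        rwa [trS_trS, trS_trS, add_neg_cancel, trS_zero, trS_zero] at this
    have h8 : g * f * wdg F.2 a b = ∑ C ∈ S, mon (-F.1) * (mon (bp C) * L1 a b (nf C)) := by
      rw [← h7, ← h5, mul_assoc, h4, Finset.mul_sum]
      refine Finset.sum_congr rfl fun τ _ => ?_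
      ring
    have h9 : mon F.1 * (g * f * wdg F.2 a b) = ∑ C ∈ S, mon (bp C) * L1 a b (nf C) := by
      rw [h8, Finset.mul_sum]
      refine Finset.sum_congr rfl fun C _ => ?_
      rw [← mul_assoc, hmon, add_neg_cancel]
      have : mon (0 : Lat m) = (1 : R m) := rfl
      rw [this, one_mul]
    rw [hgq] at h9
    rw [← h9]
    ring

end main

end Pool.Agent.PSC.H2
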