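import Pool.Agent.Helper26_PSC.LatA
import Pool.Agent.Helper48_PSC.LatB
import Pool.Agent.Helper97_PSC.Clq
import Pool.Agent.Helper54_PSC.Mult
import Pool.Agent.Helper94_PSC.PatchStmt
import Pool.Agent.Helper11_PSC.LinAlg
import Pool.Agent.Helper40_PSC.Red
import Pool.Agent.Helper60_PSC.Nov
import Pool.Agent.Helper76_PSC.Fin
import Pool.Agent.Helper58_PSC.Mom
import Pool.Agent.Helper11_PSC.Contra
import Pool.Agent.Helper54_PSC.Flip
import Pool.Agent.Helper27_PSC.Gifs
import Pool.Agent.Helper40_PSC.Tile
import Pool.Agent.Helper27_PSC.Par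
import Pool.Agent.Helper2_PSC.Gal
import Pool.Agent.Helper2_PSC.Hid
import Pool.Agent.Helper95_PSC.Asm

set_option autoImplicit false

namespace Pool.Agent.PSC.H2

theorem pisot : PisotConj := by
  have hA := H26.latA
  have hB := H48.latB
  have hT := Helper40_PSC.tileStmt
  have hP := H27.par
  have hG := H27.gifs hB
  have hF := Helper54_PSC.flip hB hT hG
  have hM := Helper54_PSC.mult hA hT hF
  have hC := H97.clique hA hT
  have hRel := rel_of hT hF (H58.mom hT) galois
  have hH := hid hRel H11.linAlg H60.nov hC hT hA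
  have hPatch := H94.patchStmt hB hT hP hG hC
  exact pisot_of hM hC hH hPatch H11.contra H76.fin Helper40_PSC.redStmt

end Pool.Agent.PSC.H2
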